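import Pool.Agent.K9h46.Abi

/-!
# The unweighted Elliott conjecture when all factors but one are tame

A 1-bounded multiplicative function is tame if, for some Dirichlet character `χ` and some real `t`,
it is close to `χ(p) p^(it)` at the primes between `X^(1/K)` and `X`, as `X` tends to infinity, for
every fixed `K`. It may be far from `χ(p) p^(it)` at the smaller primes, so that it need not be
pretentious.

If all the factors but one are tame, and some factor is not pretentious, then the correlations tend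
to zero. If one of the tame factors is not pretentious, this is uniform in the remaining factor,
which may be any product of a 1-bounded multiplicative function and of a bounded function of `Ω`, and
may depend on the range.

Method: the structure theorem of the starting files (`Pool.Agent.W208.TL.st`: against any
multiplicative function, a function of the smooth parts of the `n + a_j` may be replaced by its
average over the product law of the smooth parts, up to a periodic function), a decomposition of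
tame functions, and an Euler product.
-/

set_option autoImplicit false

namespace Pool.Agent.Results.MP_0c9a68_nt.AllButOneTame

open Finset Filter

/-- 1-bounded multiplicative functions on the positive integers -/
def IsMult (g : ℕ → ℂ) : Prop :=
  (∀ n, ‖g n‖ ≤ 1) ∧ ∀ m n : ℕ, 1 ≤ m → 1 ≤ n → Nat.Coprime m n → g (m * n) = g m * g n

/-- the function `g` at the integer `m`, extended by zero to the integers `m ≤ 0` -/
noncomputable def ext (g : ℕ → ℂ) (m : ℤ) : ℂ := if 0 < m then g m.toNat else 0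

/-- the number of prime factors, with multiplicity -/
def bigOmega (n : ℕ) : ℕ := ArithmeticFunction.cardFactors n

/-- `χ(n) n ^ (i t)` -/
noncomputable def twist {q : ℕ} (χ : DirichletCharacter ℂ q) (t : ℝ) (n : ℕ) : ℂ :=
  χ (n : ZMod q) * Complex.exp (Complex.I * ((t * Real.log n : ℝ) : ℂ))

/-- not pretentious: for every Dirichlet character `χ` and every fixed real `t`, the sum over the
primes `p ≤ X` of `(1 - Re (g(p) conj (χ(p) p^(it)))) / p` tends to infinity -/
def NonPretentious (g : ℕ → ℂ) : Prop :=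
  ∀ (q : ℕ) (χ : DirichletCharacter ℂ q) (t : ℝ), 1 ≤ q → Tendsto (fun X : ℕ =>
    ∑ p ∈ (Icc 1 X).filter Nat.Prime, (1 - (g p * (starRingEnd ℂ) (twist χ t p)).re) / p)
      atTop atTop

/-- tame: for some Dirichlet character `χ` and some real `t`, for every fixed `K`, the sum over the
primes `p ≤ X` with `p ^ K > X` of `(1 - Re (g(p) conj (χ(p) p^(it)))) / p` tends to zero -/
def Tame (g : ℕ → ℂ) : Prop :=
  ∃ (q : ℕ) (χ : DirichletCharacter ℂ q) (t : ℝ), 1 ≤ q ∧ ∀ K : ℕ, 1 ≤ K → Tendsto (fun X : ℕ =>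
    ∑ p ∈ (Icc 1 X).filter (fun p => p.Prime ∧ X < p ^ K),
      (1 - (g p * (starRingEnd ℂ) (twist χ t p)).re) / p) atTop (nhds 0)

/-- `(1 / N) ∑_{n ≤ N} f(n + a 0) g_1(n + a 1) ⋯ g_k(n + a k)` -/
noncomputable def corr {k : ℕ} (a : Fin (k + 1) → ℤ) (f : ℕ → ℂ) (g : Fin k → ℕ → ℂ) (N : ℕ) : ℂ :=
  (1 / (N : ℂ)) * ∑ n ∈ Icc 1 N, ext f (n + a 0) * ∏ j, ext (g j) (n + a j.succ)

/-- Let `k ≥ 1`, let `a_0, …, a_k` be distinct integers, and let `g_1, …, g_k` be tame 1-bounded
multiplicative functions.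

If some `g_j` is not pretentious, then for every `ε > 0` there is `X₀` such that for all `X ≥ X₀`,
ALL 1-bounded multiplicative functions `f` and all functions `b` bounded by `1`, the average over
`n ≤ X` of `f(n + a_0) b(Ω(n + a_0)) ∏ g_j(n + a_j)` is at most `ε` in absolute value.

If `f` is a 1-bounded multiplicative function which is not pretentious, then the average over
`n ≤ X` of `f(n + a_0) ∏ g_j(n + a_j)` tends to zero. -/
theorem result (k : ℕ) (hk : 1 ≤ k) (a : Fin (k + 1) → ℤ) (ha : Function.Injective a)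
    (g : Fin k → ℕ → ℂ) (hg : ∀ j, IsMult (g j)) (htame : ∀ j, Tame (g j)) :
    ((∃ j, NonPretentious (g j)) → ∀ ε : ℝ, 0 < ε → ∃ X₀ : ℕ, ∀ X : ℕ, X₀ ≤ X →
      ∀ f : ℕ → ℂ, IsMult f → ∀ b : ℕ → ℂ, (∀ m, ‖b m‖ ≤ 1) →
        ‖corr a (fun m => f m * b (bigOmega m)) g X‖ ≤ ε) ∧
    ∀ f : ℕ → ℂ, IsMult f → NonPretentious f →
      Tendsto (fun X : ℕ => corr a f g X) atTop (nhds 0) := by
  choose q χ t hq ht using htame
  have hcr : ∀ (f : ℕ → ℂ) (X : ℕ), corr a f g X = Pool.Agent.K9h46.cr a f g X := fun _ _ => rfl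
  have huu : ∀ (g : ℕ → ℂ) {q : ℕ} (χ : DirichletCharacter ℂ q) (t : ℝ) {p : ℕ}, p.Prime →
      Pool.Agent.K9h46.uu (Pool.Agent.K9h46.z0 g) χ t p = g p * (starRingEnd ℂ) (twist χ t p) := by
    intro g q χ t p hp
    unfold Pool.Agent.K9h46.uu Pool.Agent.K9h46.z0
    rw [if_neg hp.ne_zero]
    rfl
  have hnp : ∀ g : ℕ → ℂ, NonPretentious g → Pool.Agent.K9h46.NPT (Pool.Agent.K9h46.z0 g) := by
    intro g hg q hq χ t
    refine (hg q χ t hq).congr fun X => ?_
    unfold Pool.Agent.W208.TL.PP
    have h1 : (Icc 1 X).filter Nat.Prime = (Ioc 0 X).filter Nat.Prime := by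
      ext p
      simp only [mem_filter, mem_Icc, mem_Ioc]
      constructor
      · rintro ⟨⟨h1, h2⟩, h3⟩
        exact ⟨⟨by omega, h2⟩, h3⟩
      · rintro ⟨⟨h1, h2⟩, h3⟩
        exact ⟨⟨by omega, h2⟩, h3⟩
    rw [h1]
    refine sum_congr rfl fun p hp => ?_
    rw [huu g χ t (mem_filter.1 hp).2]
  have htame : ∀ j, Pool.Agent.W208.TL.Tame
      (Pool.Agent.K9h46.uu (Pool.Agent.K9h46.z0 (g j)) (χ j) (t j)) := by
    intro j K hK
    refine (ht j K hK).congr fun X => sum_congr rfl fun p hp => ?_
    rw [huu (g j) (χ j) (t j) (mem_filter.1 hp).2.1]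
  refine ⟨fun ⟨j, hj⟩ ε hε => ?_, fun f hf hfn => ?_⟩
  · obtain ⟨X₀, hX₀⟩ := Pool.Agent.K9h46.abt_int k hk a ha g hg q hq χ t htame
      (fun f' => ∃ f b : ℕ → ℂ, IsMult f ∧ (∀ m, ‖b m‖ ≤ 1) ∧ f' = fun m => f m * b (bigOmega m))
      (by
        rintro f' ⟨f, b, hf, hb, rfl⟩
        refine ⟨fun n => ?_, Pool.Agent.K9h46.kf_om hf b hb _⟩
        rw [norm_mul]
        exact mul_le_one₀ (hf.1 _) (norm_nonneg _) (hb _))
      (Or.inl ⟨j, hnp (g j) hj (q j) (hq j) (χ j) (t j)⟩) ε hε
    refine ⟨X₀, fun X hX f hf b hb => ?_⟩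
    have h1 := hX₀ X hX (fun m => f m * b (bigOmega m)) ⟨f, b, hf, hb, rfl⟩
    rw [hcr]
    exact h1
  · have hfM : Pool.Agent.K9h46.MU f := hf
    rcases hfM.one with h1 | h1
    · have h4 : ∀ N, corr a f g N = 0 := by
        intro N
        unfold corr
        rw [sum_eq_zero, mul_zero]
        intro n _
        have h2 : ext f (n + a 0) = 0 := by
          have := hfM.zero h1 (n + a 0) (fun _ => 1)
          simp only [mul_one] at this
          exact this
        rw [h2, zero_mul]
      simp only [h4]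
      exact tendsto_const_nhds
    · have hb := hfM.bm h1
      rw [Metric.tendsto_atTop]
      intro ε hε
      obtain ⟨X₀, hX₀⟩ := Pool.Agent.K9h46.abt_int k hk a ha g hg q hq χ t htame
        (fun f' => f' = f)
        (by
          rintro f' rfl
          exact ⟨hf.1, Pool.Agent.W690.TL.mul1_kf (Pool.Agent.W690.TL.mul1_nit hb _)⟩)
        (Or.inr fun Q r hQ ε' hε' => by
          obtain ⟨X₀, hX₀⟩ := Pool.Agent.K9h46.ap_zero hb (hnp f hfn) (∑ j, t j) hQ r ε' hε'
          refine ⟨X₀, fun X hX f' hf' => ?_⟩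
          rw [hf']
          exact hX₀ X hX) (ε / 2) (by positivity)
      refine ⟨X₀, fun X hX => ?_⟩
      rw [dist_zero_right]
      have := hX₀ X hX f rfl
      rw [hcr]
      linarith

end Pool.Agent.Results.MP_0c9a68_nt.AllButOneTame
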