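import Pool.Agent.K9h46.Nr4

/-!
# Elliott's conjecture at almost all scales for a factor which is close to a twisted character on
the large primes, with any number of adversarial factors

`f` is a 1-bounded multiplicative function which is close to `χ(p) p^(it)` at the primes between
`X^(1/K)` and `X`, but not at the smaller primes. Then `f(n + a_0) h_1(n + a_1) ⋯ h_k(n + a_k)` has
small averages over `n ≤ N`, on average over the scales `N ≤ X`, uniformly over `f` and over ALL
1-bounded multiplicative functions `h_j`. The closeness required, `1 / K`, depends only on `k`, the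
shifts and `ε`, and not on the functions.

Method: the correlations of `f` with itself along cubes are small (law of the `(w, y]`-parts of
several integers from the fundamental lemma of the sieve, `Pool.Agent.W208.TL.CLAIM` in the starting
files, and an Euler product), and a uniform inverse theorem, which follows from the entropy
decrement argument for sequences of functions (`Pool.Agent.Q270.EB.seqB`, starting files, after
Tao), reduces arbitrary companions to these.
-/

set_option autoImplicit false

namespace Pool.Agent.Results.MP_0c9a68_nt.NearTwistAdversaries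

open Finset

/-- 1-bounded multiplicative functions on the positive integers -/
def IsMult (g : ℕ → ℂ) : Prop :=
  (∀ n, ‖g n‖ ≤ 1) ∧ ∀ m n : ℕ, 1 ≤ m → 1 ≤ n → Nat.Coprime m n → g (m * n) = g m * g n

/-- the function `g` at the integer `m`, extended by zero to the integers `m ≤ 0` -/
noncomputable def ext (g : ℕ → ℂ) (m : ℤ) : ℂ := if 0 < m then g m.toNat else 0

/-- the part of `n` composed of the primes larger than `w` -/
def rough (w n : ℕ) : ℕ := ∏ p ∈ n.primeFactors.filter (fun p => w < p), p ^ n.factorization p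

/-- the number of prime factors, with multiplicity -/
def bigOmega (n : ℕ) : ℕ := ArithmeticFunction.cardFactors n

/-- `χ(n) n ^ (i t)` -/
noncomputable def twist {q : ℕ} (χ : DirichletCharacter ℂ q) (t : ℝ) (n : ℕ) : ℂ :=
  χ (n : ZMod q) * Complex.exp (Complex.I * ((t * Real.log n : ℝ) : ℂ))

/-- the square of the pretentious distance, over the primes `u < p ≤ v` -/
noncomputable def distSq (f g : ℕ → ℂ) (u v : ℕ) : ℝ :=
  ∑ p ∈ (Ioc u v).filter Nat.Prime, (1 - (f p * (starRingEnd ℂ) (g p)).re) / p

/-- `(1 / N) ∑_{n ≤ N} f(n + a 0) h_1(n + a 1) ⋯ h_k(n + a k)` -/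
noncomputable def corr {k : ℕ} (a : Fin (k + 1) → ℤ) (f : ℕ → ℂ) (h : Fin k → ℕ → ℂ) (N : ℕ) : ℂ :=
  (1 / (N : ℂ)) * ∑ n ∈ Icc 1 N, ext f (n + a 0) * ∏ j, ext (h j) (n + a j.succ)

/-- For all `k ≥ 1`, distinct integers `a_0, …, a_k` and `ε > 0` there are `K` and `w`, and for every
`q` there are `A` and `X₀`, such that for all `X ≥ X₀`, all `y` with `y^K ≤ X`, all 1-bounded
multiplicative `f`, all Dirichlet characters `χ` modulo `q` and all real `t` with `|t|^K ≤ X`: if the
square of the distance of `f` and `χ(n) n^(it)` is at least `A` over the primes up to `y` and at most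
`1 / K` over the primes between `y` and `X`, then for ALL 1-bounded multiplicative functions `h_j`
and all bounded functions `b_j` the logarithmic average over the scales `N ≤ X` of the absolute value
of the average over `n ≤ N` of `f(n + a_0) ∏ h_j(n + a_j) b_j(Ω(n + a_j), (n + a_j)_{> w})` is at most
`ε`. -/
theorem result (k : ℕ) (hk : 1 ≤ k) (a : Fin (k + 1) → ℤ) (ha : Function.Injective a) (ε : ℝ)
    (hε : 0 < ε) : ∃ K w : ℕ, 1 ≤ K ∧ ∀ q : ℕ, 1 ≤ q → ∃ (A : ℝ) (X₀ : ℕ), ∀ X y : ℕ, X₀ ≤ X →
      y ^ K ≤ X → ∀ (f : ℕ → ℂ) (χ : DirichletCharacter ℂ q) (t : ℝ), IsMult f → |t| ^ K ≤ X →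
      A ≤ distSq f (twist χ t) 0 y → distSq f (twist χ t) y X ≤ 1 / K →
      ∀ h : Fin k → ℕ → ℂ, (∀ j, IsMult (h j)) →
      ∀ b : Fin k → ℕ → ℕ → ℂ, (∀ j u v, ‖b j u v‖ ≤ 1) →
        ∑ N ∈ Icc 1 X, (1 / (N : ℝ)) *
          ‖corr a f (fun j m => h j m * b j (bigOmega m) (rough w m)) N‖ ≤ ε * Real.log X := by
  obtain ⟨K, w, hK, hmain⟩ := Pool.Agent.K9h46.near_thm k hk a ha (ε / 2) (by positivity)
  refine ⟨K, w, hK, fun q hq => ?_⟩
  obtain ⟨A, X₀, hX₀⟩ := hmain q hq
  refine ⟨A, max X₀ 3, fun X y hX hyX f χ t hf ht hA hδ h hh b hb => ?_⟩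
  have hX3 : 3 ≤ X := (le_max_right _ _).trans hX
  have hlog : 0 < Real.log X := Real.log_pos (by exact_mod_cast (by omega : 1 < X))
  have hfM : Pool.Agent.K9h46.MU f := hf
  rcases hfM.one with h1 | h1
  · have h4 : ∀ N, corr a f (fun j m => h j m * b j (bigOmega m) (rough w m)) N = 0 := by
      intro N
      unfold corr
      rw [sum_eq_zero, mul_zero]
      intro n _
      have h2 : ext f (n + a 0) = 0 := by
        have := hfM.zero h1 (n + a 0) (fun _ => 1)
        simp only [mul_one] at this
        exact this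
      rw [h2, zero_mul]
    simp only [h4, norm_zero, mul_zero, sum_const_zero]
    positivity
  · have hz : ∀ p ∈ (Ioc 0 y).filter Nat.Prime ∪ (Ioc y X).filter Nat.Prime,
        Pool.Agent.K9h46.uu (Pool.Agent.K9h46.z0 f) χ t p = f p * (starRingEnd ℂ) (twist χ t p) := by
      intro p hp
      have hp0 : p ≠ 0 := by
        rcases mem_union.1 hp with h2 | h2
        · exact (mem_filter.1 h2).2.ne_zero
        · exact (mem_filter.1 h2).2.ne_zero
      unfold Pool.Agent.K9h46.uu Pool.Agent.K9h46.z0
      rw [if_neg hp0]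
      rfl
    refine Pool.Agent.K9h46.transfer k a f ε hε w X hX3 (fun g G hg hG => ?_) h hh b hb
    refine hX₀ X y ((le_max_left _ _).trans hX) hyX (Pool.Agent.K9h46.z0 f) χ t (hfM.bm h1) ht ?_ ?_
      g G hg hG
    · refine hA.trans (le_of_eq ?_)
      unfold distSq Pool.Agent.W208.TL.PP
      refine sum_congr rfl fun p hp => ?_
      rw [hz p (mem_union_left _ hp)]
    · refine le_trans (le_of_eq ?_) hδ
      unfold distSq Pool.Agent.W208.TL.PP
      refine sum_congr rfl fun p hp => ?_
      rw [hz p (mem_union_right _ hp)]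

end Pool.Agent.Results.MP_0c9a68_nt.NearTwistAdversaries
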