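import Pool.Agent.K9h46.Rand

/-!
# Elliott's conjecture at almost all scales with any number of adversarial factors, for almost every
modification of the Liouville function on one extremely sparse set of primes

There is a set `Q` of primes, so sparse that the sum of the reciprocals of its members up to `y` is
`O((log* y)^2)`, with the following property. Let `g` be completely multiplicative with values `1`
and `-1`, for instance the Liouville function, and choose the signs at the primes of `Q` at random.
Almost surely the resulting function `f`, which agrees with `g` at all primes outside `Q`, is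
orthogonal, at almost all scales, to ALL products of shifts of `k` arbitrary functions: products of
a 1-bounded multiplicative function and of a bounded function of `Ω(m)` and of the part of `m`
composed of the primes larger than `w`. The `k` functions may be chosen after `f` and after the
range `X` of the scales.

Method: the correlations of `f` with itself vanish almost surely (`Pool.Agent.TH573.SM.main`,
starting files, after Chowla's conjecture for random modifications), and the entropy decrement
argument with a generalised von Neumann inequality (`Pool.Agent.Q270.EB.tt_of`, starting files,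
after Tao) reduces arbitrary companions to these.
-/

set_option autoImplicit false

namespace Pool.Agent.Results.MP_0c9a68_nt.RandomFactorAdversaries

open Finset Filter MeasureTheory Pool.Agent.H220M
open Pool.Agent.TH573.SM (tower)

/-- 1-bounded multiplicative functions on the positive integers -/
def IsMult (g : ℕ → ℂ) : Prop :=
  (∀ n, ‖g n‖ ≤ 1) ∧ ∀ m n : ℕ, 1 ≤ m → 1 ≤ n → Nat.Coprime m n → g (m * n) = g m * g n

/-- the function `g` at the integer `m`, extended by zero to the integers `m ≤ 0` -/
noncomputable def ext (g : ℕ → ℂ) (m : ℤ) : ℂ := if 0 < m then g m.toNat else 0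

/-- the part of `n` composed of the primes larger than `w` -/
def rough (w n : ℕ) : ℕ := ∏ p ∈ n.primeFactors.filter (fun p => w < p), p ^ n.factorization p

/-- the number of prime factors, with multiplicity -/
def bigOmega (n : ℕ) : ℕ := ArithmeticFunction.cardFactors n

/-- `(1 / N) ∑_{n ≤ N} f(n + a 0) h_1(n + a 1) ⋯ h_k(n + a k)` -/
noncomputable def corr {k : ℕ} (a : Fin (k + 1) → ℤ) (f : ℕ → ℂ) (h : Fin k → ℕ → ℂ) (N : ℕ) : ℂ :=
  (1 / (N : ℂ)) * ∑ n ∈ Icc 1 N, ext f (n + a 0) * ∏ j, ext (h j) (n + a j.succ)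

open Classical in
theorem result : ∃ Q : Set ℕ, (∀ q ∈ Q, q.Prime) ∧
    (∃ K : ℝ, ∀ n : ℕ, ∑ q ∈ (Icc 1 (tower n)).filter (fun q => q ∈ Q), (1 : ℝ) / q ≤ K * n ^ 2) ∧
    ∀ g : ℕ →*₀ ℤ, (∀ p : ℕ, p.Prime → g p = 1 ∨ g p = -1) →
    ∀ᵐ ω ∂coins, ∃! f : ℕ →*₀ ℤ, IsModif g Q ω f ∧
      ∀ (k : ℕ) (a : Fin (k + 1) → ℤ), 1 ≤ k → Function.Injective a → ∀ ε : ℝ, 0 < ε →
        ∃ w X₀ : ℕ, ∀ X : ℕ, X₀ ≤ X → ∀ h : Fin k → ℕ → ℂ, (∀ j, IsMult (h j)) →
          ∀ b : Fin k → ℕ → ℕ → ℂ, (∀ j u v, ‖b j u v‖ ≤ 1) →
          ∑ N ∈ Icc 1 X, (1 / (N : ℝ)) * ‖corr a (fun n => ((f n : ℤ) : ℂ))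
            (fun j m => h j m * b j (bigOmega m) (rough w m)) N‖ ≤ ε * Real.log X := by
  refine ⟨Pool.Agent.TH573.SM.sparse, fun q hq => hq.1, ?_, fun g hg =>
    Pool.Agent.K9h46.rand g hg⟩
  obtain ⟨K, hK⟩ := Pool.Agent.TH573.SM.sparse_sum
  refine ⟨K, fun n => ?_⟩
  refine le_trans (Finset.sum_le_sum_of_subset_of_nonneg ?_ fun q _ _ => by positivity) (hK n)
  intro q hq
  rw [mem_filter, mem_Icc] at hq ⊢
  obtain ⟨h1, hp, i, h2, h3⟩ := hq
  refine ⟨h1, i, ?_, hp, h2, h3⟩
  by_contra h
  have := Pool.Agent.TH573.SM.tower_strictMono.monotone (not_lt.1 h)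
  omega

end Pool.Agent.Results.MP_0c9a68_nt.RandomFactorAdversaries
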