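import Pool.Agent.K9h46.Inv

/-!
# Elliott's conjecture with adversarial factors at almost all scales: a uniform inverse theorem

If a 1-bounded multiplicative function `f` has a large correlation, on average over the scales up
to `X`, with some product of shifts of other multiplicative functions (times functions of `Ω` and of
the large prime factors), then `f` has a large correlation with itself along the vertices of a cube
with distinct vertices and bounded sides, on average over the scales up to `X`. All bounds are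
uniform in `f` and in the other functions.

Method: compactness and the entropy decrement argument for sequences of functions
(`Pool.Agent.Q270.EB.seqB`, starting files, after Tao); functions which are small at many primes are
treated separately.
-/

set_option autoImplicit false

namespace Pool.Agent.Results.MP_0c9a68_nt.SelfCorrelationInverse

open Finset

/-- 1-bounded multiplicative functions on the positive integers -/
def IsMult (g : ℕ → ℂ) : Prop :=
  (∀ n, ‖g n‖ ≤ 1) ∧ ∀ m n : ℕ, 1 ≤ m → 1 ≤ n → Nat.Coprime m n → g (m * n) = g m * g n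

/-- the function `g` at the integer `m`, extended by zero to the integers `m ≤ 0` -/
noncomputable def ext (g : ℕ → ℂ) (m : ℤ) : ℂ := if 0 < m then g m.toNat else 0

/-- the part of `n` composed of the primes larger than `w` -/
def rough (w n : ℕ) : ℕ := ∏ p ∈ n.primeFactors.filter (fun p => w < p), p ^ n.factorization p

/-- the number of prime factors, with multiplicity -/
def bigOmega (n : ℕ) : ℕ := ArithmeticFunction.cardFactors n

/-- `(1 / N) ∑_{n ≤ N} f(n + a 0) h_1(n + a 1) ⋯ h_k(n + a k)` -/
noncomputable def corr {k : ℕ} (a : Fin (k + 1) → ℤ) (f : ℕ → ℂ) (h : Fin k → ℕ → ℂ) (N : ℕ) : ℂ :=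
  (1 / (N : ℂ)) * ∑ n ∈ Icc 1 N, ext f (n + a 0) * ∏ j, ext (h j) (n + a j.succ)

/-- complex conjugation if `b` is odd -/
noncomputable def conjIfOdd (b : ℕ) (z : ℂ) : ℂ := if b % 2 = 0 then z else (starRingEnd ℂ) z

/-- `(1 / N) ∑_{n ≤ N} ∏_{s ⊆ {1..k}} C^|s| f(n + ∑_{i ∈ s} t_i)`, the correlation of `f` and its
conjugate along the cube with sides `t_i` -/
noncomputable def cube {k : ℕ} (t : Fin k → ℤ) (f : ℕ → ℂ) (N : ℕ) : ℂ :=
  (1 / (N : ℂ)) * ∑ n ∈ Icc 1 N, ∏ s : Finset (Fin k), conjIfOdd s.card (ext f (n + ∑ i ∈ s, t i))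

/-- For all `k ≥ 1`, distinct integers `a_0, …, a_k` and `ε > 0` there are `R`, `w`, `X₀` and
`δ > 0` such that for all `X ≥ X₀`, all 1-bounded multiplicative `f`, `h_1, …, h_k` and all bounded
functions `b_j`: if the logarithmic average over the scales `N ≤ X` of the absolute value of the
average over `n ≤ N` of `f(n + a_0) ∏ h_j(n + a_j) b_j(Ω(n + a_j), (n + a_j)_{> w})` is larger than
`ε`, then there is a cube with distinct vertices and sides at most `R` such that the logarithmic
average over the scales `N ≤ X` of the absolute value of the correlation of `f` along the cube is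
larger than `δ`. -/
theorem result (k : ℕ) (hk : 1 ≤ k) (a : Fin (k + 1) → ℤ) (ha : Function.Injective a) (ε : ℝ)
    (hε : 0 < ε) : ∃ (R w X₀ : ℕ) (δ : ℝ), 0 < δ ∧ ∀ X : ℕ, X₀ ≤ X → ∀ f : ℕ → ℂ, IsMult f →
      ∀ h : Fin k → ℕ → ℂ, (∀ j, IsMult (h j)) →
      ∀ b : Fin k → ℕ → ℕ → ℂ, (∀ j u v, ‖b j u v‖ ≤ 1) →
      ε * Real.log X < ∑ N ∈ Icc 1 X, (1 / (N : ℝ)) *
        ‖corr a f (fun j m => h j m * b j (bigOmega m) (rough w m)) N‖ →
      ∃ t : Fin k → ℤ, (∀ i, |t i| ≤ R) ∧
        Function.Injective (fun s : Finset (Fin k) => ∑ i ∈ s, t i) ∧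
        δ * Real.log X < ∑ N ∈ Icc 1 X, (1 / (N : ℝ)) * ‖cube t f N‖ :=
  Pool.Agent.K9h46.inverse k hk a ha ε hε

end Pool.Agent.Results.MP_0c9a68_nt.SelfCorrelationInverse
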